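import Pool.Agent.Q66.RX.Stm

/-!
# Project RX (helper66), job LC
-/

set_option autoImplicit false

namespace Pool.Agent.Q222.RX

open Topology Filter Set Pool.Agent.Q66.RX

/-- the evaluation is jointly continuous for locally compact groups -/
theorem cont_ev (G : Type) [CommGroup G] [TopologicalSpace G] [IsTopologicalGroup G]
    [LocallyCompactSpace G] : Continuous (fun p : PontryaginDual G × G => p.1 p.2) := by
  have h1 : Continuous (fun χ : PontryaginDual G =>
      (ContinuousMonoidHom.toContinuousMap (A := G) (B := Circle) χ)) :=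
    (ContinuousMonoidHom.isInducing_toContinuousMap G Circle).continuous
  have h2 : Continuous (fun q : C(G, Circle) × G => q.1 q.2) := continuous_eval
  exact h2.comp ((h1.comp continuous_fst).prodMk continuous_snd)

/-- LC. -/
theorem t_LC : S_LC := by
  intro G _ _ _ _ Q hQ V hV
  have hO : IsOpen {p : PontryaginDual G × G | p.1 p.2 ∈ interior V} :=
    isOpen_interior.preimage (cont_ev G)
  have hsub : Q ×ˢ ({1} : Set G) ⊆ {p : PontryaginDual G × G | p.1 p.2 ∈ interior V} := by
    rintro ⟨ψ, x⟩ ⟨hψ, hx⟩
    have hx' : x = 1 := hx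
    subst hx'
    show ψ 1 ∈ interior V
    rw [map_one]
    exact mem_interior_iff_mem_nhds.2 hV
  obtain ⟨u, v, hu, hv, hQu, h1v, huv⟩ := generalized_tube_lemma hQ isCompact_singleton hO hsub
  refine ⟨v, hv.mem_nhds (h1v rfl), fun ψ hψ x hx => ?_⟩
  exact interior_subset (huv (Set.mk_mem_prod (hQu hψ) hx))

end Pool.Agent.Q222.RX
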